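import Pool.Agent.REL34.Basic
import Pool.Agent.UC32.Door

/-!
# One element with isotropic annihilator whose elements have their symbols in `Q_y`

`S` is a finite linked structure with `-1 = 1`, `V_y` isotropic, `Q_z ⊆ Q_y` for all `z ∈ V_y`,
`a ∈ Q_y` with inclusion-maximal set of slots.  Then `a` is rigid at one slot.
-/

set_option autoImplicit false
set_option linter.unusedSectionVars false

namespace Pool.Agent.FD34

open Pool.Agent.Helper58.PLine (QData)
open Pool.Agent.REL34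
open scoped Classical

section fibre
variable {V Q : Type} [AddCommGroup V] [Module (ZMod 2) V] {S : QData V Q} {a : Q} {y : V}

/-- the elements annihilated by a slot of `a` -/
def Dm (S : QData V Q) (a : Q) (x : V) : Prop := ∃ s, Sl S a s ∧ S.q s x = S.z

/-- **points**: `x ∈ D_a` has a lift in `x + V_y` annihilated by one `m` with `y m = a` -/
theorem pts (self : ∀ x, S.q x x = S.z) (hy : Sl S a y) {x : V} (hx : Dm S a x) :
    ∃ m u, S.q y m = a ∧ S.q y u = S.z ∧ S.q m (x + u) = S.z := by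
  obtain ⟨t, ht, hx⟩ := hx
  obtain ⟨w, hw1, hw2⟩ := lk hy ht
  -- `y x = (t + y) (x + w)`
  have e1 : S.q (t + y) w = S.z := lc hw2 hw1
  have e2 : S.q (y + t) x = S.q y x := l0 rfl hx
  have e3 : S.q (t + y) (x + w) = S.q y x := by
    refine r0 ?_ e1
    rw [add_comm, e2]
  obtain ⟨g, g1, g2⟩ := lk (a := S.q y x) (s := y) (t := x + w) ⟨x, rfl⟩
    ⟨t + y, by rw [S.symm, e3]⟩
  have g3 : S.q y (x + g) = S.z := rc rfl g1
  have g4 : S.q (y + (x + w)) g = S.z := lc g1 g2
  have g5 : S.q (y + (x + w) + g) g = S.z := lc g4 (self g)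
  refine ⟨y + (x + w) + g, x + g, ?_, g3, ?_⟩
  · rw [show y + (x + w) + g = w + (y + (x + g)) by abel]
    refine r0 hw1 ?_
    have := (S.add y y (x + g)).1 ((self y).trans g3.symm)
    exact this
  · rwa [xxy]

/-- the hypotheses on the fibre of `a` over `y` -/
structure Hf (S : QData V Q) (a : Q) (y : V) : Prop where
  self : ∀ x, S.q x x = S.z
  az : a ≠ S.z
  hy : Sl S a y
  iso : ∀ u v, S.q y u = S.z → S.q y v = S.z → S.q u v = S.z
  R : ∀ p z, S.q y p = a → S.q y z = S.z → S.q p z = S.z ∨ S.q p z = a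

/-- the distributive law -/
theorem Hf.dist (H : Hf S a y) {p g w x u : V} (hp : S.q y p = a) (hg : S.q y g = a)
    (hw : S.q p w = S.z) (hx : S.q (p + y) x = S.z) (hu : S.q y u = S.z)
    (h : S.q g (w + x + u) = S.z) : ∃ e, S.q y e = S.z ∧ S.q g (w + e) = S.z := by
  -- no defect
  have key : ∀ W X, S.q p W = S.z → S.q (p + y) X = S.z → S.q g (W + X) = S.z →
      S.q g W = S.z := by
    intro W X h1 h2 h3
    have hz : S.q y (g + p) = S.z := rc hg hp
    have e1 : S.q (g + p) W = S.q g W := l0 rfl h1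
    have e2 : S.q g X = S.q g W := by
      rw [S.add, add_comm X W]
      exact h3
    have e3 : S.q (g + (p + y)) X = S.q g W := (l0 rfl h2).trans e2
    obtain ⟨t, t1, t2⟩ := S.link _ _ _ _ (e1.trans e3.symm)
    have t3 : S.q (g + p + (g + (p + y))) t = S.z :=
      lc t1.symm (t2.symm.trans (e3.trans e1.symm))
    rw [show g + p + (g + (p + y)) = g + (g + (p + (p + y))) by abel, xxy, xxy] at t3
    rw [← e1, t1]
    exact H.iso _ _ hz t3
  have hyy : S.q y y = S.z := H.self y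
  have fin : ∀ e, S.q y e = S.z → S.q g (w + (e + p)) = S.z →
      ∃ e, S.q y e = S.z ∧ S.q g (w + e) = S.z := by
    intro e he h1
    refine ⟨e + (p + g), ?_, ?_⟩
    · have : S.q y (p + g) = S.z := rc hp hg
      exact (S.add y e (p + g)).1 (he.trans this.symm)
    · have h2 := (S.add g (w + (e + p)) g).1 (h1.trans (H.self g).symm)
      rwa [show w + (e + p) + g = w + (e + (p + g)) by abel] at h2
  rcases H.R p u hp hu with h0 | h0
  · refine ⟨u, hu, key (w + u) x ?_ hx ?_⟩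
    · exact (S.add p w u).1 (hw.trans h0.symm)
    · rwa [show w + u + x = w + x + u by abel]
  · have h1 : S.q p (u + y) = S.z := rc h0 (by rw [S.symm]; exact hp)
    refine fin (u + y) ((S.add y u y).1 (hu.trans hyy.symm)) (key (w + (u + y + p)) (x + (p + y)) ?_ ?_ ?_)
    · have h2 : S.q p (u + y + p) = S.z := (S.add p (u + y) p).1 (h1.trans (H.self p).symm)
      exact (S.add p w _).1 (hw.trans h2.symm)
    · exact (S.add (p + y) x (p + y)).1 (hx.trans (H.self _).symm)
    · rw [show w + (u + y + p) + (x + (p + y)) = p + (p + (y + (y + (w + x + u)))) by abel,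
        xxy, xxy]
      exact h

/-- **one full element in the fibre**, if `D_a = V_p + V_(p + y) + V_y` for all `p` of the
fibre -/
theorem Hf.full [Finite V] (H : Hf S a y)
    (B : ∀ p x, S.q y p = a → Dm S a x → ∃ x1 x2 e, S.q p x1 = S.z ∧ S.q (p + y) x2 = S.z ∧
      S.q y e = S.z ∧ x = x1 + x2 + e) :
    ∃ p, S.q y p = a ∧ ∀ x, Dm S a x → ∃ u, S.q y u = S.z ∧ S.q p (x + u) = S.z := by
  -- killers
  let K : V → Set V := fun w => {p | S.q y p = a ∧ ∃ u, S.q y u = S.z ∧ S.q p (w + u) = S.z}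
  have : Nonempty {w : V // Dm S a w} := ⟨⟨0, y, H.hy, q0 y⟩⟩
  obtain ⟨⟨w, hw⟩, hmin⟩ := Finite.exists_min (fun w : {w : V // Dm S a w} => (K w.1).ncard)
  obtain ⟨p, u0, hp, hu0, hpw⟩ := pts H.self H.hy hw
  refine ⟨p, hp, fun x hx => ?_⟩
  by_contra hcon
  obtain ⟨x1, x2, e, h1, h2, he, rfl⟩ := B p x hp hx
  have hpy : Sl S a (p + y) := ⟨y, l0 (by rw [S.symm]; exact hp) (H.self y)⟩
  have hx2 : Dm S a x2 := ⟨p + y, hpy, h2⟩
  have hw' : Dm S a (w + x2) := dd_add hw hx2
  have hlt : (K (w + x2)).ncard < (K w).ncard := by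
    refine Set.ncard_lt_ncard ⟨?_, ?_⟩ (Set.toFinite _)
    · rintro g ⟨hg, u', hu', h3⟩
      refine ⟨hg, ?_⟩
      obtain ⟨e', he', h4⟩ := H.dist (w := w + u0) (x := x2) (u := u' + u0) hp hg hpw h2
        ((S.add y u' u0).1 (hu'.trans hu0.symm))
        (by rw [show w + u0 + x2 + (u' + u0) = u0 + (u0 + (w + x2 + u')) by abel, xxy]; exact h3)
      refine ⟨u0 + e', (S.add y u0 e').1 (hu0.trans he'.symm), ?_⟩
      rwa [← add_assoc]
    · intro hsub
      obtain ⟨-, u', hu', h3⟩ := hsub ⟨hp, u0, hu0, hpw⟩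
      have h4 := (S.add p (w + u0) (w + x2 + u')).1 (hpw.trans h3.symm)
      rw [show w + u0 + (w + x2 + u') = w + (w + (x2 + (u0 + u'))) by abel, xxy] at h4
      have h5 := (S.add p x1 (x2 + (u0 + u'))).1 (h1.trans h4.symm)
      refine hcon ⟨e + (u0 + u'), ?_, ?_⟩
      · exact (S.add y e _).1 (he.trans ((S.add y u0 u').1 (hu0.trans hu'.symm)).symm)
      · rw [show x1 + x2 + e + (e + (u0 + u')) = e + (e + (x1 + (x2 + (u0 + u')))) by abel, xxy]
        exact h5
  exact absurd hlt (not_lt.2 (hmin ⟨_, hw'⟩))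

/-- **rigid**: `Q_z ⊆ Q_y` for all `z ∈ V_y`, `V_y` isotropic, and `a ∈ Q_y` an atom -/
theorem rigid_of_FD [Finite V] (self : ∀ x, S.q x x = S.z) (az : a ≠ S.z) (hy : Sl S a y)
    (iso : ∀ u v, S.q y u = S.z → S.q y v = S.z → S.q u v = S.z)
    (FD : ∀ z v, S.q y z = S.z → Sl S (S.q z v) y)
    (AT : ∀ b, Sl S b y → (∀ n, S.q y n = a → Sl S b n) → b = S.z ∨ b = a) :
    ∃ p, S.q y p = a ∧ ∀ x, Dm S a x → S.q p x = S.z ∨ S.q p x = a := by
  have H : Hf S a y := ⟨self, az, hy, iso, fun p z hp hz => by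
    refine AT _ (by rw [S.symm]; exact FD z p hz) fun n hn => ?_
    have h1 : S.q (p + (p + n)) z = S.q p z := l0 rfl (iso _ _ (rc hp hn) hz)
    rw [xxy] at h1
    exact ⟨z, h1⟩⟩
  obtain ⟨p, hp, hfull⟩ := H.full fun p x hp hx => by
    obtain ⟨m, v, hm, hv, h1⟩ := pts self hy hx
    have hz : S.q y (m + p) = S.z := rc hm hp
    have e1 : S.q (m + p) (x + v) = S.q p (x + v) := by
      rw [add_comm m p]
      exact l0 rfl h1
    obtain ⟨h, h2, h3⟩ := lk (a := S.q p (x + v)) (s := p) (t := y) ⟨_, rfl⟩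
      (e1 ▸ FD (m + p) (x + v) hz)
    refine ⟨x + v + h, h, v, rc rfl h2, lc h2 h3, hv, ?_⟩
    rw [show x + v + h + h + v = v + (v + (h + (h + x))) by abel, xxy, xxy]
  refine ⟨p, hp, fun x hx => ?_⟩
  obtain ⟨u, hu, h1⟩ := hfull x hx
  have h2 : S.q p u = S.q p x := by
    rw [S.add, add_comm]
    exact h1
  rw [← h2]
  exact H.R p u hp hu

end fibre

open QS
open Pool.Agent.KAP66
open Pool.Agent.KAP31
open Pool.Agent.AST (toD)

/-- **the door**: one `y ≠ 1` with isotropic annihilator whose elements have their symbols in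
`Q_y`, in every least structure not of elementary type -/
theorem etc_of_FD_iso (h : ∀ S : QStruct, MinEx S → ∃ y : S.G, y ≠ 1 ∧
    (∀ u v, S.q y u = S.zero → S.q y v = S.zero → S.q u v = S.zero) ∧
    ∀ z v, S.q y z = S.zero → InQ S y (S.q z v)) :
    ∀ S : QStruct, Finite S.G → S.neg = 1 → ElemType S :=
  etc_of_rigid_symbol fun S M => by
    have := M.fin
    have hfin : Finite (Additive S.G) := (inferInstance : Finite S.G)
    obtain ⟨y, hy, iso, FD⟩ := h S M
    obtain ⟨t, ht⟩ := M.no_rad hy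
    obtain ⟨a, ha, hab, hmax⟩ := exists_smax ht
    have hya : InQ S y a := hab y ⟨t, rfl⟩
    obtain ⟨n0, hn0⟩ := hya
    obtain ⟨p, hp, h1⟩ := rigid_of_FD (S := toD S M.neg) (a := a) (y := Additive.ofMul y)
      (fun x => UC32.q_self M.neg _) ha ⟨Additive.ofMul n0, hn0⟩
      (fun u v hu hv => iso _ _ hu hv)
      (fun z v hz => by
        obtain ⟨w, hw⟩ := FD _ (Additive.toMul v) hz
        exact ⟨Additive.ofMul w, hw⟩)
      (fun b hb hbn => by
        obtain ⟨w, hw⟩ := hb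
        refine atomic ⟨y, n0, hn0⟩ hmax fun x hx => ?_
        refine UC32.ucS M.neg ha (g := y) ⟨Additive.toMul w, hw⟩ ⟨n0, hn0⟩ (fun n hn => ?_) hx
        obtain ⟨m, hm⟩ := hbn (Additive.ofMul n) hn
        exact ⟨Additive.toMul m, hm⟩)
    refine ⟨a, Additive.toMul p, ha, ⟨y, by rw [S.qs2]; exact hp⟩, fun v hv => ?_⟩
    obtain ⟨s, ⟨w, hs⟩, hv'⟩ := hv
    exact h1 (Additive.ofMul v) ⟨Additive.ofMul s, ⟨Additive.ofMul w, hs⟩, hv'⟩

end Pool.Agent.FD34
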